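import Pool.Agent.Helper84.Kurepa.Defs

set_option autoImplicit false

namespace Pool.Agent.Helper84.Kurepa

open Cardinal

theorem mk_W : #W = ℵ_ 2 := by
  rw [Cardinal.mk_toType]
  simp

theorem mk_Iio (a : W) : #(Set.Iio a) ≤ ℵ₁ := by
  have h : #(Set.Iio a) < ℵ_ 2 := by
    have := Cardinal.mk_Iio_toType_ord_lt (c := ℵ_ 2)
    have h2 : (ℵ_ 2).ord = Ordinal.omega 2 := by simp
    rw [h2] at this
    exact this a
  have h3 : ℵ_ 2 = Order.succ ℵ₁ := by
    rw [Cardinal.succ_aleph]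
    norm_num
  rw [h3] at h
  exact Order.lt_succ_iff.mp h

theorem aleph_one_lt : ℵ₁ < ℵ_ 2 := by
  exact Cardinal.aleph_lt_aleph.mpr (by norm_num)

theorem exists_bound {ι : Type} (hι : #ι ≤ ℵ₁) (g : ι → W) : ∃ b : W, ∀ i, g i < b := by
  by_contra hcon
  push Not at hcon
  have h1 : (Set.univ : Set W) ⊆ ⋃ i, Set.Iic (g i) := by
    intro x _
    obtain ⟨i, hi⟩ := hcon x
    exact Set.mem_iUnion.mpr ⟨i, hi⟩
  have h2 : #W ≤ ℵ₁ := by
    calc #W = #(Set.univ : Set W) := mk_univ.symm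
      _ ≤ #(⋃ i, Set.Iic (g i) : Set W) := mk_le_mk_of_subset h1
      _ ≤ Cardinal.sum (fun i => #(Set.Iic (g i))) := mk_iUnion_le_sum_mk
      _ ≤ Cardinal.sum (fun _ : ι => ℵ₁) := by
          apply Cardinal.sum_le_sum
          intro i
          have : Set.Iic (g i) = insert (g i) (Set.Iio (g i)) := by
            ext; simp [le_iff_lt_or_eq, or_comm]
          rw [this]
          refine (mk_insert_le).trans ?_
          calc #(Set.Iio (g i)) + 1 ≤ ℵ₁ + 1 := by gcongr; exact mk_Iio _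
            _ = ℵ₁ := Cardinal.add_one_eq (Cardinal.aleph0_le_aleph 1)
      _ = #ι * ℵ₁ := by simp
      _ ≤ ℵ₁ * ℵ₁ := by gcongr
      _ = ℵ₁ := Cardinal.mul_eq_self (Cardinal.aleph0_le_aleph 1)
  rw [mk_W] at h2
  exact absurd h2 (not_le.mpr aleph_one_lt)

/-- Agreement below `a`. -/
def Ag (a : W) (x y : W → W) : Prop := ∀ c, c < a → x c = y c

theorem res_eq_iff {a : W} {x y : W → W} : res a x = res a y ↔ Ag a x y := by
  constructor
  · intro h c hc
    exact congrFun h ⟨c, hc⟩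
  · intro h
    funext c
    exact h c.1 c.2

theorem Ag.symm {a : W} {x y : W → W} (h : Ag a x y) : Ag a y x := fun c hc => (h c hc).symm

theorem Ag.mono {a b : W} {x y : W → W} (h : Ag a x y) (hb : b ≤ a) : Ag b x y :=
  fun c hc => h c (lt_of_lt_of_le hc hb)

theorem Ag.refl (a : W) (x : W → W) : Ag a x x := fun _ _ => rfl

theorem exists_res (a : W) (s : Set.Iio a → W) : ∃ x : W → W, res a x = s := by
  classical
  refine ⟨fun c => if h : c < a then s ⟨c, h⟩ else c, ?_⟩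
  funext c
  have : c.1 < a := c.2
  simp [res, this]

theorem exists_bot : ∃ b : W, ∀ c, b ≤ c := by
  have : Nonempty W := by
    rw [← Cardinal.mk_ne_zero_iff, mk_W]
    exact (Cardinal.aleph_pos 2).ne'
  obtain ⟨x⟩ := this
  obtain ⟨m, hm, hm2⟩ := WellFounded.has_min (wellFounded_lt (α := W)) Set.univ ⟨x, trivial⟩
  exact ⟨m, fun c => not_lt.mp (hm2 c trivial)⟩

theorem exists_gt' (a : W) : ∃ b : W, a < b := by
  obtain ⟨b, hb⟩ := exists_bound (ι := Unit) (by simp [Cardinal.one_le_aleph0.trans (Cardinal.aleph0_le_aleph 1)]) (fun _ => a)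
  exact ⟨b, hb ()⟩

/-! ### Topology -/

theorem isOpen_cyl (a : W) (s : Set.Iio a → W) : @IsOpen _ boundedTopology (cyl a s) :=
  TopologicalSpace.GenerateOpen.basic _ ⟨a, s, rfl⟩

theorem isOpen_iff_bdd (U : Set (W → W)) :
    @IsOpen _ boundedTopology U ↔ ∀ x ∈ U, ∃ a, ∀ y, Ag a x y → y ∈ U := by
  constructor
  · intro h
    induction h with
    | basic V hV =>
      obtain ⟨a, s, rfl⟩ := hV
      intro x hx
      refine ⟨a, fun y hy => ?_⟩
      have : res a x = res a y := res_eq_iff.mpr hy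
      show res a y = s
      rw [← this]
      exact hx
    | univ => intro x _; exact ⟨exists_bot.choose, fun _ _ => trivial⟩
    | inter V V' _ _ h1 h2 =>
      rintro x ⟨hx1, hx2⟩
      obtain ⟨a, ha⟩ := h1 x hx1
      obtain ⟨b, hb⟩ := h2 x hx2
      refine ⟨max a b, fun y hy => ⟨ha y (hy.mono (le_max_left _ _)), hb y (hy.mono (le_max_right _ _))⟩⟩
    | sUnion S _ hS =>
      rintro x ⟨V, hV, hx⟩
      obtain ⟨a, ha⟩ := hS V hV x hx
      exact ⟨a, fun y hy => ⟨V, hV, ha y hy⟩⟩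
  · intro h
    have : U = ⋃₀ {V | (∃ a s, V = cyl a s) ∧ V ⊆ U} := by
      ext x
      constructor
      · intro hx
        obtain ⟨a, ha⟩ := h x hx
        refine ⟨cyl a (res a x), ⟨⟨a, res a x, rfl⟩, ?_⟩, rfl⟩
        intro y hy
        exact ha y (res_eq_iff.mp hy.symm)
      · rintro ⟨V, ⟨_, hVU⟩, hx⟩
        exact hVU hx
    rw [this]
    apply TopologicalSpace.GenerateOpen.sUnion
    rintro V ⟨⟨a, s, rfl⟩, _⟩
    exact isOpen_cyl a s

theorem continuous_iff_bdd (f : (W → W) → (W → W)) :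
    @Continuous _ _ boundedTopology boundedTopology f ↔
      ∀ x a, ∃ b, ∀ y, Ag b x y → Ag a (f x) (f y) := by
  constructor
  · intro h x a
    have h1 : @IsOpen _ boundedTopology (f ⁻¹' (cyl a (res a (f x)))) :=
      @Continuous.isOpen_preimage _ _ boundedTopology boundedTopology f h _ (isOpen_cyl _ _)
    obtain ⟨b, hb⟩ := (isOpen_iff_bdd _).mp h1 x rfl
    refine ⟨b, fun y hy => ?_⟩
    exact (res_eq_iff.mp (hb y hy)).symm
  · intro h
    refine @Continuous.mk _ _ boundedTopology boundedTopology f ?_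
    intro U hU
    rw [isOpen_iff_bdd] at hU ⊢
    intro x hx
    obtain ⟨a, ha⟩ := hU (f x) hx
    obtain ⟨b, hb⟩ := h x a
    exact ⟨b, fun y hy => ha _ (hb y hy)⟩

end Pool.Agent.Helper84.Kurepa
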