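import Pool.Agent.Helper84.Kurepa.Basic

set_option autoImplicit false

namespace Pool.Agent.Helper84.Kurepa

open Cardinal

theorem closed_image {T : ∀ a : W, Set (Set.Iio a → W)} (hT : IsKurepa T) (hc : IsClosedPruned T) :
    IsContinuousImage (branches T) := by
  classical
  obtain ⟨hsub, hne, hlev, hbr⟩ := hT
  obtain ⟨hlim, hpr⟩ := hc
  obtain ⟨o, ho⟩ := exists_bot
  have hmono : ∀ (x : W → W) (a b : W), b ≤ a → res a x ∈ T a → res b x ∈ T b :=
    fun x a b h hx => hsub a b h _ hx
  -- the last node of `x` in `T`
  have hlast : ∀ x : W → W, x ∉ branches T →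
      ∃ b, res b x ∈ T b ∧ ∃ a, b < a ∧ res a x ∉ T a ∧ ∀ c, b < c → a ≤ c := by
    intro x hx
    have hx' : ∃ a, res a x ∉ T a := by
      by_contra h
      push Not at h
      exact hx h
    obtain ⟨a, ha, hmin⟩ := WellFounded.has_min (wellFounded_lt (α := W)) {a | res a x ∉ T a} hx'
    have hmin' : ∀ b, b < a → res b x ∈ T b := fun b hb => by
      by_contra h
      exact hmin b h hb
    have h1 : ¬ ∀ b < a, ∃ c, b < c ∧ c < a := fun h => ha (hlim a x h hmin')
    push Not at h1
    obtain ⟨b, hba, hb⟩ := h1
    exact ⟨b, hmin' b hba, a, hba, ha, hb⟩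
  choose last hl1 nxt hl2 hl3 hl4 using hlast
  choose br hb1 hb2 using hpr
  let f : (W → W) → (W → W) := fun x =>
    if hx : x ∈ branches T then x else br (last x hx) (res (last x hx) x) (hl1 x hx)
  have hlast_eq : ∀ (x y : W → W) (hx : x ∉ branches T) (hy : y ∉ branches T),
      Ag (nxt x hx) x y → last y hy = last x hx := by
    intro x y hx hy hxy
    -- `res (nxt x) y ∉ T`, and `res (last x) y ∈ T`
    have h1 : res (nxt x hx) y ∉ T (nxt x hx) := by
      rw [← res_eq_iff.mpr hxy]; exact hl3 x hx
    have h2 : res (last x hx) y ∈ T (last x hx) := by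
      rw [← res_eq_iff.mpr (hxy.mono (hl2 x hx).le)]; exact hl1 x hx
    apply le_antisymm
    · by_contra h
      rw [not_le] at h
      exact h1 (hmono y _ _ (hl4 x hx _ h) (hl1 y hy))
    · by_contra h
      rw [not_le] at h
      exact hl3 y hy (hmono y _ _ (hl4 y hy _ h) h2)
  have hagree : ∀ (y : W → W) (e : W), res e y ∈ T e → Ag e y (f y) := by
    intro y e he
    by_cases hy : y ∈ branches T
    · simp only [f, hy, dite_true]
      exact Ag.refl _ _
    · simp only [f, hy, dite_false]
      have h1 : e ≤ last y hy := by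
        by_contra h
        rw [not_le] at h
        exact hl3 y hy (hmono y _ _ (hl4 y hy _ h) he)
      have h2 : Ag (last y hy) (br (last y hy) (res (last y hy) y) (hl1 y hy)) y :=
        res_eq_iff.mp (hb2 _ _ _)
      exact (h2.mono h1).symm
  refine ⟨f, ?_, ?_⟩
  · rw [continuous_iff_bdd]
    intro x a
    by_cases hx : x ∈ branches T
    · refine ⟨a, fun y hy => ?_⟩
      have h1 : res a y ∈ T a := by
        rw [← res_eq_iff.mpr hy]; exact hx a
      have h2 : f x = x := by simp [f, hx]
      rw [h2]
      intro c hc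
      rw [hy c hc]
      exact hagree y a h1 c hc
    · refine ⟨nxt x hx, fun y hxy => ?_⟩
      have hy : y ∉ branches T := by
        intro h
        apply hl3 x hx
        rw [res_eq_iff.mpr hxy]
        exact h _
      have h1 := hlast_eq x y hx hy hxy
      have h2 : res (last x hx) x = res (last x hx) y := res_eq_iff.mpr (hxy.mono (hl2 x hx).le)
      have h3 : f x = f y := by
        simp only [f, hx, hy, dite_false]
        have key : ∀ (b : W) (s : Set.Iio b → W) (hs : s ∈ T b) (b' : W) (s' : Set.Iio b' → W)
            (hs' : s' ∈ T b'), b = b' → HEq s s' → br b s hs = br b' s' hs' := by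
          intro b s hs b' s' hs' h h'
          subst h
          obtain rfl := eq_of_heq h'
          rfl
        apply key _ _ _ _ _ _ h1.symm
        rw [h1, h2]
      rw [h3]
      exact Ag.refl _ _
  · apply Set.eq_of_subset_of_subset
    · rintro _ ⟨x, rfl⟩
      by_cases hx : x ∈ branches T
      · simpa [f, hx] using hx
      · simp only [f, hx, dite_false]
        exact hb1 _ _ _
    · intro x hx
      exact ⟨x, by simp [f, hx]⟩

end Pool.Agent.Helper84.Kurepa
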