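import Mathlib

set_option autoImplicit false

namespace Pool.Agent.Helper84.Kurepa

open Cardinal

/-- The well-ordered set `ω₂`: its elements are the ordinals below `ω₂`. The initial segment
`Set.Iio a` of `a : W` is the set of ordinals below `a`. -/
abbrev W : Type := (Ordinal.omega 2).ToType

/-- The restriction `x ↾ a` of a function `x : ω₂ → ω₂`. -/
def res (a : W) (x : W → W) : Set.Iio a → W := fun c => x c

/-- The basic open set `N_s` of all `x : ω₂ → ω₂` extending `s : a → ω₂`. -/
def cyl (a : W) (s : Set.Iio a → W) : Set (W → W) := {x | res a x = s}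

/-- The bounded topology on the set of all functions `ω₂ → ω₂`. -/
def boundedTopology : TopologicalSpace (W → W) :=
  TopologicalSpace.generateFrom {U | ∃ (a : W) (s : Set.Iio a → W), U = cyl a s}

/-- A subtree `T` of the tree of all functions `a → ω₂` with `a < ω₂`, given by its levels:
`T a` is the set of the elements of `T` of length `a`; closed under initial segments. -/
def IsSubtree (T : ∀ a : W, Set (Set.Iio a → W)) : Prop :=
  ∀ (a b : W) (h : b ≤ a) (s : Set.Iio a → W), s ∈ T a →
    (fun c : Set.Iio b => s ⟨c.1, lt_of_lt_of_le c.2 h⟩) ∈ T b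

/-- The set `[T]` of branches of `T`. -/
def branches (T : ∀ a : W, Set (Set.Iio a → W)) : Set (W → W) := {x | ∀ a, res a x ∈ T a}

/-- `T` is an `ω₂`-Kurepa tree: it is a subtree of height `ω₂`, with levels of cardinality at
most `ω₁` and more than `ω₂` branches. -/
def IsKurepa (T : ∀ a : W, Set (Set.Iio a → W)) : Prop :=
  IsSubtree T ∧ (∀ a, (T a).Nonempty) ∧ (∀ a, #(T a) ≤ ℵ₁) ∧ ℵ_ 2 < #(branches T)

/-- `T` is everywhere large: `|[T] ∩ N_s| > ω₂` for every `s ∈ T`. -/
def EverywhereLarge (T : ∀ a : W, Set (Set.Iio a → W)) : Prop :=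
  ∀ (a : W), ∀ s ∈ T a, ℵ_ 2 < #(branches T ∩ cyl a s : Set (W → W))

/-- `A` is a continuous image of the generalized Baire space of all functions `ω₂ → ω₂`. -/
def IsContinuousImage (A : Set (W → W)) : Prop :=
  ∃ f : (W → W) → (W → W),
    @Continuous _ _ boundedTopology boundedTopology f ∧ Set.range f = A

/-- `T` is closed at limits and pruned: a function of limit length all of whose proper initial
segments lie in `T` lies in `T`, and every element of `T` is an initial segment of a branch. -/
def IsClosedPruned (T : ∀ a : W, Set (Set.Iio a → W)) : Prop :=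
  (∀ (a : W) (x : W → W), (∀ b < a, ∃ c, b < c ∧ c < a) → (∀ b < a, res b x ∈ T b) →
    res a x ∈ T a) ∧
  ∀ (a : W), ∀ s ∈ T a, ∃ x ∈ branches T, res a x = s

end Pool.Agent.Helper84.Kurepa
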