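import Pool.Agent.Helper84.Kurepa.Main

set_option autoImplicit false

namespace Pool.Agent.Helper84.Kurepa

open Cardinal

section

variable {T₀ : ∀ a : W, Set (Set.Iio a → W)}

/-- The branches all of whose nodes are large. -/
def LB (T₀ : ∀ a : W, Set (Set.Iio a → W)) : Set (W → W) := {y | ∀ a, Lg T₀ a y}

theorem LB_sub : LB T₀ ⊆ branches T₀ := fun _ hy a => (hy a).mem

/-- Above every large node there are many large branches. -/
theorem many_LB (hlev : ∀ a, #(T₀ a) ≤ ℵ₁) {a : W} {x : W → W} (hx : Lg T₀ a x) :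
    ℵ_ 2 < #({y : W → W | y ∈ LB T₀ ∧ Ag a x y} : Set _) := by
  by_contra hcon
  rw [not_lt] at hcon
  have hsub : {y : W → W | y ∈ branches T₀ ∧ Ag a x y} ⊆
      {y : W → W | y ∈ LB T₀ ∧ Ag a x y} ∪
      ⋃ b : W, ⋃ s : {s : T₀ b // #({y : W → W | y ∈ branches T₀ ∧ res b y = s.1} : Set _) ≤ ℵ_ 2},
        {y : W → W | y ∈ branches T₀ ∧ res b y = s.1.1} := by
    rintro y ⟨hy, hay⟩
    by_cases h : ∀ b, Lg T₀ b y
    · exact Or.inl ⟨h, hay⟩
    · push Not at h
      obtain ⟨b, hb⟩ := h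
      refine Or.inr (Set.mem_iUnion.mpr ⟨b, Set.mem_iUnion.mpr ⟨⟨⟨res b y, hy b⟩, ?_⟩, hy, rfl⟩⟩)
      unfold Lg at hb
      rw [not_lt] at hb
      refine le_trans (le_of_eq ?_) hb
      change _ = #({z : W → W | z ∈ branches T₀ ∧ Ag b y z} : Set _)
      congr 2
      ext z
      simp only [Set.mem_ofPred_eq]
      refine and_congr_right fun _ => ?_
      rw [← res_eq_iff]
      exact ⟨fun h => h.symm, fun h => h.symm⟩
  have h1 : #({y : W → W | y ∈ branches T₀ ∧ Ag a x y} : Set _) ≤ ℵ_ 2 := by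
    refine (mk_le_mk_of_subset hsub).trans ((mk_union_le _ _).trans ?_)
    calc _ ≤ ℵ_ 2 + ℵ_ 2 := by
          gcongr
          refine mk_iUnion_le_aleph_two _ mk_W.le (fun b => ?_)
          refine mk_iUnion_le_aleph_two _ ?_ (fun s => s.2)
          exact (mk_subtype_le _).trans ((hlev b).trans aleph_one_lt.le)
      _ = ℵ_ 2 := Cardinal.add_eq_self (Cardinal.aleph0_le_aleph 2)
  exact absurd hx (not_lt.mpr h1)

/-- There is a large branch. -/
theorem exists_LB (hlev : ∀ a, #(T₀ a) ≤ ℵ₁) (hbr : ℵ_ 2 < #(branches T₀)) : (LB T₀).Nonempty := by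
  obtain ⟨b, hb⟩ := exists_bot
  have hx : Lg T₀ b (fun c => c) := by
    unfold Lg
    refine hbr.trans_le ?_
    exact mk_le_mk_of_subset (s := branches T₀)
      (t := {z : W → W | z ∈ branches T₀ ∧ Ag b (fun c => c) z})
      (fun z hz => ⟨hz, fun c hc => absurd (hb c) (not_le.mpr hc)⟩)
  have h2 := many_LB hlev hx
  have : Nonempty ({y : W → W | y ∈ LB T₀ ∧ Ag b (fun c => c) y} : Set _) := by
    rw [← Cardinal.mk_ne_zero_iff]
    intro h0
    rw [h0] at h2
    exact absurd h2 (by simp)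
  obtain ⟨y, hy⟩ := this
  exact ⟨y, hy.1⟩

theorem glue_mem {n : ℕ} {b : W} {z y : W → W} (hE : E T₀ n b z) (hy : y ∈ LB T₀)
    (h : ∀ c, b ≤ c → z c = y c) : z ∈ branches (newTree T₀) := by
  have key : ∀ a, b ≤ a → Tn T₀ n a z := fun a ha =>
    ⟨b, ha, hE, y, hy a, fun c hc _ => h c hc⟩
  intro a
  rw [mem_newTree]
  rcases le_total b a with hba | hab
  · exact ⟨n, key a hba⟩
  · exact ⟨n, (key b le_rfl).mono hab⟩

theorem newTree_large (hlev : ∀ a, #(T₀ a) ≤ ℵ₁) : EverywhereLarge (newTree T₀) := by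
  classical
  rintro a s ⟨x, ⟨n, b, hb, h1, τ, hτ, h2⟩, rfl⟩
  refine (many_LB hlev hτ).trans_le ?_
  -- the map `y ↦ x` below `a` and `y` from `a` on
  let F : (W → W) → (W → W) := fun y c => if c < a then x c else y c
  have hF : ∀ y ∈ {y : W → W | y ∈ LB T₀ ∧ Ag a τ y},
      F y ∈ (branches (newTree T₀) ∩ cyl a (res a x) : Set (W → W)) := by
    rintro y ⟨hy, hay⟩
    have hag : Ag a x (F y) := fun c hc => by simp [F, hc]
    refine ⟨?_, (res_eq_iff.mpr hag).symm⟩
    refine glue_mem (n := n) (b := b) (h1.congr (hag.mono hb)) hy ?_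
    intro c hc
    by_cases hca : c < a
    · simp only [F, hca, if_true]
      rw [h2 c hc hca, hay c hca]
    · simp [F, hca]
  refine Cardinal.mk_le_of_injective (f := fun y : {y : W → W | y ∈ LB T₀ ∧ Ag a τ y} =>
    (⟨F y.1, hF y.1 y.2⟩ : (branches (newTree T₀) ∩ cyl a (res a x) : Set (W → W)))) ?_
  rintro ⟨y, hy⟩ ⟨y', hy'⟩ hyy
  have hyy' : F y = F y' := congrArg Subtype.val hyy
  apply Subtype.ext
  funext c
  by_cases hca : c < a
  · show y c = y' c
    rw [← hy.2 c hca, ← hy'.2 c hca]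
  · have := congrFun hyy' c
    simpa [F, hca] using this

theorem newTree_nonempty (hlev : ∀ a, #(T₀ a) ≤ ℵ₁) (hbr : ℵ_ 2 < #(branches T₀)) (a : W) :
    (newTree T₀ a).Nonempty := by
  obtain ⟨y, hy⟩ := exists_LB hlev hbr
  exact ⟨res a y, mem_newTree.mpr ⟨0, Tn.zero_iff.mpr (hy a)⟩⟩

theorem newTree_isKurepa (hlev : ∀ a, #(T₀ a) ≤ ℵ₁) (hbr : ℵ_ 2 < #(branches T₀)) :
    IsKurepa (newTree T₀) := by
  refine ⟨newTree_isSubtree, newTree_nonempty hlev hbr, mk_newTree hlev, ?_⟩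
  obtain ⟨b, hb⟩ := exists_bot
  obtain ⟨s, hs⟩ := newTree_nonempty hlev hbr b
  exact (newTree_large hlev b s hs).trans_le (mk_le_mk_of_subset Set.inter_subset_left)

/-- Structure of the branches of the new tree. -/
theorem newTree_branch (hlev : ∀ a, #(T₀ a) ≤ ℵ₁) {x : W → W} (hx : x ∈ branches (newTree T₀)) :
    ∃ n b, E T₀ n b x ∧ ∃ y ∈ LB T₀, ∀ c, b ≤ c → x c = y c := by
  classical
  have hx' : ∀ a, ∃ n, Tn T₀ n a x := fun a => mem_newTree.mp (hx a)
  have h1 : ∃ n, ∀ a, Tn T₀ n a x := by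
    by_contra hcon
    push Not at hcon
    choose g hg using hcon
    obtain ⟨a, ha⟩ := exists_bound (ι := ℕ) (by simp [Cardinal.aleph0_le_aleph 1]) g
    obtain ⟨n, hn⟩ := hx' a
    exact hg n (hn.mono (ha n).le)
  have h2 := Nat.find_spec h1
  set n := Nat.find h1 with hn
  rcases Nat.eq_zero_or_pos n with h0 | hpos
  · obtain ⟨b, hb⟩ := exists_bot
    refine ⟨0, b, hb, x, fun a => ?_, fun _ _ => rfl⟩
    rw [h0] at h2
    exact Tn.zero_iff.mp (h2 a)
  · obtain ⟨m, hm⟩ := Nat.exists_eq_succ_of_ne_zero hpos.ne'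
    have hm1 : ¬ ∀ a, Tn T₀ m a x := Nat.find_min h1 (by omega)
    push Not at hm1
    obtain ⟨a0, ha0⟩ := hm1
    rw [hm] at h2
    have h3 : ∀ a, ∃ b τ, E T₀ (m + 1) b x ∧ b ≤ a0 ∧ (b ≤ a) ∧ Lg T₀ a τ ∧
        ∀ c, b ≤ c → c < a → x c = τ c := by
      intro a
      obtain ⟨b, hb, hE, τ, hτ, h4⟩ := h2 a
      refine ⟨b, τ, hE, ?_, hb, hτ, h4⟩
      by_contra hba
      exact ha0 (E.below hE (not_le.mp hba))
    choose bb ττ hE hba0 hba hτ h4 using h3
    -- pigeonhole on the pair `(b, τ ↾ a0)`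
    have h5 : ∃ (b : Set.Iic a0) (p : T₀ a0), ∀ d, ∃ a, d ≤ a ∧ ∃ _ : a0 ≤ a,
        bb a = b.1 ∧ res a0 (ττ a) = p.1 := by
      by_contra hcon
      push Not at hcon
      choose d hd using hcon
      have hcard : #(Set.Iic a0 × T₀ a0) ≤ ℵ₁ := by
        rw [Cardinal.mk_prod, Cardinal.lift_id, Cardinal.lift_id]
        calc #(Set.Iic a0) * #(T₀ a0) ≤ ℵ₁ * ℵ₁ := by
              gcongr
              · exact mk_Iic' a0
              · exact hlev a0
          _ = ℵ₁ := Cardinal.mul_eq_self (Cardinal.aleph0_le_aleph 1)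
      obtain ⟨e, he⟩ := exists_bound (ι := Set.Iic a0 × T₀ a0) hcard (fun q => d q.1 q.2)
      have ha0e : a0 ≤ max a0 e := le_max_left _ _
      refine hd ⟨bb (max a0 e), hba0 _⟩ ⟨res a0 (ττ (max a0 e)), ((hτ _).mono ha0e).mem⟩
        (max a0 e) ?_ ha0e rfl rfl
      exact ((he (⟨bb (max a0 e), hba0 _⟩, ⟨res a0 (ττ (max a0 e)), ((hτ _).mono ha0e).mem⟩)).le).trans
        (le_max_right _ _)
    obtain ⟨b, p, h6⟩ := h5
    obtain ⟨a1, -, ha1, hb1, hp1⟩ := h6 a0
    refine ⟨m + 1, b.1, hb1 ▸ hE a1, fun c => if h : c < a0 then p.1 ⟨c, h⟩ else x c, ?_, ?_⟩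
    · intro e
      obtain ⟨a, hea, ha0a, hba', hpa⟩ := h6 e
      refine Lg.mono ?_ hea
      refine (hτ a).congr ?_
      intro c hc
      by_cases hca : c < a0
      · simp only [hca, dite_true]
        rw [← hpa]
        rfl
      · simp only [hca, dite_false]
        exact (h4 a c (by rw [hba']; exact b.2.trans (not_lt.mp hca)) hc).symm
    · intro c hc
      by_cases hca : c < a0
      · simp only [hca, dite_true]
        rw [← hp1]
        exact h4 a1 c (by rw [hb1]; exact hc) (lt_of_lt_of_le hca ha1)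
      · simp [hca]

/-- The stems. -/
def Stem (T₀ : ∀ a : W, Set (Set.Iio a → W)) : Type :=
  Σ b : W, (⋃ n : ℕ, res b '' {x | E T₀ n b x} : Set (Set.Iio b → W))

theorem mk_Stem (hlev : ∀ a, #(T₀ a) ≤ ℵ₁) : #(Stem T₀) ≤ ℵ_ 2 := by
  unfold Stem
  rw [Cardinal.mk_sigma]
  calc _ ≤ Cardinal.sum (fun _ : W => ℵ_ 2) := by
        apply Cardinal.sum_le_sum
        intro b
        refine le_trans ?_ aleph_one_lt.le
        exact mk_iUnion_le_aleph_one _ (by simp [Cardinal.aleph0_le_aleph 1])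
          (fun n => mk_E_level hlev n b)
    _ = #W * ℵ_ 2 := by simp
    _ ≤ ℵ_ 2 * ℵ_ 2 := by gcongr; exact mk_W.le
    _ = ℵ_ 2 := Cardinal.mul_eq_self (Cardinal.aleph0_le_aleph 2)

theorem exists_surj_Stem (hlev : ∀ a, #(T₀ a) ≤ ℵ₁) : ∃ g : W → Stem T₀, Function.Surjective g := by
  have hne : Nonempty (Stem T₀) := by
    obtain ⟨b, hb⟩ := exists_bot
    exact ⟨⟨b, res b (fun c => c), Set.mem_iUnion.mpr ⟨0, fun c => c, hb, rfl⟩⟩⟩
  have h := mk_Stem hlev
  rw [← mk_W] at h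
  obtain ⟨e⟩ := h
  exact ⟨Function.invFun e, Function.invFun_surjective e.injective⟩

theorem exists_equiv : Nonempty (W ≃ W × W) := by
  rw [← Cardinal.eq]
  simp only [Cardinal.mk_prod, Cardinal.lift_id]
  rw [mk_W]
  exact (Cardinal.mul_eq_self (Cardinal.aleph0_le_aleph 2)).symm

theorem newTree_image (hlev : ∀ a, #(T₀ a) ≤ ℵ₁) (hbr : ℵ_ 2 < #(branches T₀))
    (him : IsContinuousImage (branches T₀)) : IsContinuousImage (branches (newTree T₀)) := by
  classical
  obtain ⟨f₀, hf₀, hr₀⟩ := him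
  rw [continuous_iff_bdd] at hf₀
  obtain ⟨y₀, hy₀⟩ := exists_LB hlev hbr
  obtain ⟨g, hg⟩ := exists_surj_Stem hlev
  obtain ⟨π⟩ := exists_equiv
  obtain ⟨o, ho⟩ := exists_bot
  -- the decoding
  let F : Stem T₀ → (W → W) → (W → W) := fun st y c =>
    if h : c < st.1 then st.2.1 ⟨c, h⟩ else if Lg T₀ c y then y c else y₀ c
  let f : (W → W) → (W → W) := fun x => F (g (π (x o)).1) (f₀ (fun c => (π (x c)).2))
  refine ⟨f, ?_, ?_⟩
  · rw [continuous_iff_bdd]
    intro x a
    obtain ⟨b, hb⟩ := hf₀ (fun c => (π (x c)).2) a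
    obtain ⟨o', ho'⟩ := exists_gt' o
    refine ⟨max b o', fun x' hx' c hc => ?_⟩
    have h1 : x o = x' o := hx' o (lt_of_lt_of_le ho' (le_max_right _ _))
    have h2 : Ag a (f₀ (fun c => (π (x c)).2)) (f₀ (fun c => (π (x' c)).2)) := by
      apply hb
      intro e he
      show (π (x e)).2 = (π (x' e)).2
      rw [hx' e (lt_of_lt_of_le he (le_max_left _ _))]
    have h3 : Lg T₀ c (f₀ (fun c => (π (x c)).2)) ↔ Lg T₀ c (f₀ (fun c => (π (x' c)).2)) :=
      ⟨fun h => h.congr (h2.mono hc.le), fun h => h.congr (h2.mono hc.le).symm⟩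
    have h4 : f x' c = F (g (π (x o)).1) (f₀ (fun c => (π (x' c)).2)) c := by
      show F (g (π (x' o)).1) (f₀ (fun c => (π (x' c)).2)) c = _
      rw [h1]
    have h5 : f x c = F (g (π (x o)).1) (f₀ (fun c => (π (x c)).2)) c := rfl
    rw [h4, h5]
    simp only [F]
    by_cases hcs : c < (g (π (x o)).1).1
    · simp only [hcs, dite_true]
    · simp only [hcs, dite_false, h3, h2 c hc]
  · apply Set.eq_of_subset_of_subset
    · rintro _ ⟨x, rfl⟩
      set st := g (π (x o)).1 with hst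
      set y := f₀ (fun c => (π (x c)).2) with hy
      have hyT : y ∈ branches T₀ := by rw [← hr₀]; exact ⟨_, rfl⟩
      obtain ⟨b, s, hs⟩ := st
      obtain ⟨n, x1, hx1, rfl⟩ := Set.mem_iUnion.mp hs
      have hfx : f x = fun c => if c < b then x1 c else if Lg T₀ c y then y c else y₀ c := by
        funext c
        have : f x c = F (g (π (x o)).1) y c := rfl
        rw [this, ← hst]
        simp only [F]
        by_cases hc : c < b
        · simp [hc, res]
        · simp [hc]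
      have hE : E T₀ n b (f x) := by
        refine E.congr (x := x1) ?_ hx1
        intro c hc
        rw [hfx]
        simp [hc]
      by_cases hall : ∀ a, Lg T₀ a y
      · refine glue_mem hE (y := y) hall ?_
        intro c hc
        rw [hfx]
        simp [not_lt.mpr hc, hall c]
      · push Not at hall
        obtain ⟨d, hd, hdmin⟩ := WellFounded.has_min (wellFounded_lt (α := W)) {a | ¬ Lg T₀ a y} hall
        have hd2 : ∀ c, c < d → Lg T₀ c y := fun c hc => by
          by_contra h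
          exact hdmin c h hc
        have hDd : Dd T₀ d y := ⟨hyT d, hd, hd2⟩
        have hd3 : ∀ c, d ≤ c → ¬ Lg T₀ c y := fun c hc h => hd (h.mono hc)
        rcases le_or_gt d b with hdb | hbd
        · refine glue_mem hE (y := y₀) hy₀ ?_
          intro c hc
          rw [hfx]
          simp [not_lt.mpr hc, hd3 c (hdb.trans hc)]
        · have hE' : E T₀ (n + 1) d (f x) := by
            refine Or.inr ⟨b, hbd.le, hE, y, hDd, ?_⟩
            intro c hc hcd
            rw [hfx]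
            simp [not_lt.mpr hc, hd2 c hcd]
          refine glue_mem hE' (y := y₀) hy₀ ?_
          intro c hc
          rw [hfx]
          simp [not_lt.mpr (hbd.le.trans hc), hd3 c hc]
    · intro x hx
      obtain ⟨n, b, hE, y, hy, hxy⟩ := newTree_branch hlev hx
      obtain ⟨x', hx'⟩ : ∃ x', f₀ x' = y := by
        have : y ∈ Set.range f₀ := by rw [hr₀]; exact LB_sub hy
        exact this
      obtain ⟨i, hi⟩ := hg ⟨b, res b x, Set.mem_iUnion.mpr ⟨n, x, hE, rfl⟩⟩
      refine ⟨fun c => π.symm (i, x' c), ?_⟩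
      have h1 : (fun c => (π (π.symm (i, x' c))).2) = x' := by
        funext c; simp
      have h2 : f (fun c => π.symm (i, x' c)) = F (g i) (f₀ x') := by
        show F (g (π (π.symm (i, x' o))).1) (f₀ (fun c => (π (π.symm (i, x' c))).2)) = _
        rw [h1, Equiv.apply_symm_apply]
      rw [h2, hi, hx']
      funext c
      simp only [F]
      by_cases hc : c < b
      · simp [hc, res]
      · simp [hc, hy c, hxy c (not_lt.mp hc)]

end

end Pool.Agent.Helper84.Kurepa
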