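import Pool.Agent.Helper84.Kurepa.Basic

set_option autoImplicit false

namespace Pool.Agent.Helper84.Kurepa

open Cardinal

section

variable (T₀ : ∀ a : W, Set (Set.Iio a → W))

/-- large nodes -/
def Lg (a : W) (x : W → W) : Prop := ℵ_ 2 < #{y : W → W // y ∈ branches T₀ ∧ Ag a x y}

def Dd (a : W) (x : W → W) : Prop := res a x ∈ T₀ a ∧ ¬ Lg T₀ a x ∧ ∀ b < a, Lg T₀ b x

def E : ℕ → W → (W → W) → Prop
  | 0, b, _ => ∀ c, b ≤ c
  | n + 1, b, x => E n b x ∨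
      ∃ b' ≤ b, E n b' x ∧ ∃ u, Dd T₀ b u ∧ ∀ c, b' ≤ c → c < b → x c = u c

def Tn (n : ℕ) (a : W) (x : W → W) : Prop :=
  ∃ b ≤ a, E T₀ n b x ∧ ∃ τ, Lg T₀ a τ ∧ ∀ c, b ≤ c → c < a → x c = τ c

variable {T₀}

theorem Lg.congr {a : W} {x y : W → W} (h : Ag a x y) (hx : Lg T₀ a x) : Lg T₀ a y := by
  unfold Lg at *
  have : {z : W → W | z ∈ branches T₀ ∧ Ag a x z} = {z : W → W | z ∈ branches T₀ ∧ Ag a y z} := by
    ext z
    simp only [Set.mem_ofPred_eq]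
    refine and_congr_right fun _ => ⟨fun h2 c hc => ?_, fun h2 c hc => ?_⟩
    · rw [← h c hc]; exact h2 c hc
    · rw [h c hc]; exact h2 c hc
  change ℵ_ 2 < #({z : W → W | z ∈ branches T₀ ∧ Ag a x z} : Set _) at hx
  change ℵ_ 2 < #({z : W → W | z ∈ branches T₀ ∧ Ag a y z} : Set _)
  rw [← this]; exact hx

theorem Lg.mono {a b : W} {x : W → W} (hx : Lg T₀ a x) (h : b ≤ a) : Lg T₀ b x := by
  unfold Lg at *
  refine hx.trans_le ?_
  exact mk_le_mk_of_subset (s := {z : W → W | z ∈ branches T₀ ∧ Ag a x z})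
    (t := {z : W → W | z ∈ branches T₀ ∧ Ag b x z}) (fun z hz => ⟨hz.1, hz.2.mono h⟩)

theorem Lg.mem {a : W} {x : W → W} (hx : Lg T₀ a x) : res a x ∈ T₀ a := by
  have : Nonempty {y : W → W // y ∈ branches T₀ ∧ Ag a x y} := by
    rw [← Cardinal.mk_ne_zero_iff]
    intro h0
    unfold Lg at hx
    rw [h0] at hx
    exact absurd hx (by simp)
  obtain ⟨y, hy, hy2⟩ := this
  rw [res_eq_iff.mpr hy2]
  exact hy a

theorem Dd.congr {a : W} {x y : W → W} (h : Ag a x y) (hx : Dd T₀ a x) : Dd T₀ a y := by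
  refine ⟨?_, fun h' => hx.2.1 (h'.congr h.symm), fun b hb => (hx.2.2 b hb).congr (h.mono hb.le)⟩
  rw [← res_eq_iff.mpr h]; exact hx.1

theorem E.congr {n : ℕ} {b : W} {x y : W → W} (h : Ag b x y) (hx : E T₀ n b x) : E T₀ n b y := by
  induction n generalizing b with
  | zero => exact hx
  | succ n ih =>
    rcases hx with hx | ⟨b', hb', h1, u, hu, h2⟩
    · exact Or.inl (ih h hx)
    · exact Or.inr ⟨b', hb', ih (h.mono hb') h1, u, hu, fun c hc hc2 => by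
        rw [← h c hc2]; exact h2 c hc hc2⟩

theorem Tn.congr {n : ℕ} {a : W} {x y : W → W} (h : Ag a x y) (hx : Tn T₀ n a x) :
    Tn T₀ n a y := by
  obtain ⟨b, hb, h1, τ, hτ, h2⟩ := hx
  exact ⟨b, hb, h1.congr (h.mono hb), τ, hτ, fun c hc hc2 => by rw [← h c hc2]; exact h2 c hc hc2⟩

theorem Tn.succ {n : ℕ} {a : W} {x : W → W} (hx : Tn T₀ n a x) : Tn T₀ (n + 1) a x := by
  obtain ⟨b, hb, h1, τ, hτ, h2⟩ := hx
  exact ⟨b, hb, Or.inl h1, τ, hτ, h2⟩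

theorem E.below {n : ℕ} {b a : W} {x : W → W} (hx : E T₀ (n + 1) b x) (ha : a < b) :
    Tn T₀ n a x := by
  induction n generalizing b a with
  | zero =>
    rcases hx with hx | ⟨b', hb', h1, u, hu, h2⟩
    · exact absurd (hx a) (not_le.mpr ha)
    · exact ⟨b', h1 a, h1, u, hu.2.2 a ha, fun c hc hc2 => h2 c hc (hc2.trans ha)⟩
  | succ n ih =>
    rcases hx with hx | ⟨b', hb', h1, u, hu, h2⟩
    · exact (ih hx ha).succ
    · rcases le_or_gt b' a with h | h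
      · exact ⟨b', h, h1, u, hu.2.2 a ha, fun c hc hc2 => h2 c hc (hc2.trans ha)⟩
      · exact (ih h1 h).succ

theorem Tn.mono {n : ℕ} {a a' : W} {x : W → W} (hx : Tn T₀ n a x) (h : a' ≤ a) :
    Tn T₀ n a' x := by
  obtain ⟨b, hb, h1, τ, hτ, h2⟩ := hx
  rcases le_or_gt b a' with hba | hba
  · exact ⟨b, hba, h1, τ, hτ.mono h, fun c hc hc2 => h2 c hc (lt_of_lt_of_le hc2 h)⟩
  · cases n with
    | zero => exact absurd (h1 a') (not_le.mpr hba)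
    | succ n => exact (E.below h1 hba).succ

theorem Tn.zero_iff {a : W} {x : W → W} : Tn T₀ 0 a x ↔ Lg T₀ a x := by
  constructor
  · rintro ⟨b, hb, h1, τ, hτ, h2⟩
    exact hτ.congr (fun c hc => (h2 c (h1 c) hc).symm)
  · intro h
    obtain ⟨b, hb⟩ := exists_bot
    exact ⟨b, hb a, hb, x, h, fun _ _ _ => rfl⟩

/-- The new tree. -/
def newTree (T₀ : ∀ a : W, Set (Set.Iio a → W)) (a : W) : Set (Set.Iio a → W) :=
  res a '' {x | ∃ n, Tn T₀ n a x}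

theorem mem_newTree {a : W} {x : W → W} : res a x ∈ newTree T₀ a ↔ ∃ n, Tn T₀ n a x := by
  constructor
  · rintro ⟨y, ⟨n, hn⟩, hy⟩
    exact ⟨n, hn.congr (res_eq_iff.mp hy)⟩
  · rintro ⟨n, hn⟩
    exact ⟨x, ⟨n, hn⟩, rfl⟩

theorem newTree_isSubtree : IsSubtree (newTree T₀) := by
  rintro a b h s ⟨x, ⟨n, hn⟩, rfl⟩
  have : (fun c : Set.Iio b => res a x ⟨c.1, lt_of_lt_of_le c.2 h⟩) = res b x := rfl
  rw [this, mem_newTree]
  exact ⟨n, hn.mono h⟩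

/-! ### Cardinality of the levels -/

theorem mk_Iic' (a : W) : #(Set.Iic a) ≤ ℵ₁ := by
  have : Set.Iic a = insert a (Set.Iio a) := by
    ext; simp [le_iff_lt_or_eq, or_comm]
  rw [this]
  refine (mk_insert_le).trans ?_
  calc #(Set.Iio a) + 1 ≤ ℵ₁ + 1 := by gcongr; exact mk_Iio _
    _ = ℵ₁ := Cardinal.add_one_eq (Cardinal.aleph0_le_aleph 1)

theorem mk_iUnion_le_aleph_one {ι : Type} {α : Type} (s : ι → Set α) (hι : #ι ≤ ℵ₁)
    (hs : ∀ i, #(s i) ≤ ℵ₁) : #(⋃ i, s i : Set α) ≤ ℵ₁ := by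
  calc #(⋃ i, s i : Set α) ≤ Cardinal.sum (fun i => #(s i)) := mk_iUnion_le_sum_mk
    _ ≤ Cardinal.sum (fun _ : ι => ℵ₁) := Cardinal.sum_le_sum _ _ hs
    _ = #ι * ℵ₁ := by simp
    _ ≤ ℵ₁ * ℵ₁ := by gcongr
    _ = ℵ₁ := Cardinal.mul_eq_self (Cardinal.aleph0_le_aleph 1)

theorem mk_iUnion_le_aleph_two {ι : Type} {α : Type} (s : ι → Set α) (hι : #ι ≤ ℵ_ 2)
    (hs : ∀ i, #(s i) ≤ ℵ_ 2) : #(⋃ i, s i : Set α) ≤ ℵ_ 2 := by
  calc #(⋃ i, s i : Set α) ≤ Cardinal.sum (fun i => #(s i)) := mk_iUnion_le_sum_mk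
    _ ≤ Cardinal.sum (fun _ : ι => ℵ_ 2) := Cardinal.sum_le_sum _ _ hs
    _ = #ι * ℵ_ 2 := by simp
    _ ≤ ℵ_ 2 * ℵ_ 2 := by gcongr
    _ = ℵ_ 2 := Cardinal.mul_eq_self (Cardinal.aleph0_le_aleph 2)

/-- glueing two partial functions -/
noncomputable def glue {b' a : W} (s : Set.Iio b' → W) (u : Set.Iio a → W) : Set.Iio a → W := by
  classical
  exact fun c => if h : c.1 < b' then s ⟨c.1, h⟩ else u c

theorem mk_image2_le_aleph_one {α β γ : Type} (f : α → β → γ) (s : Set α) (t : Set β)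
    (hs : #s ≤ ℵ₁) (ht : #t ≤ ℵ₁) : #(Set.image2 f s t) ≤ ℵ₁ := by
  rw [← Set.image_prod]
  refine mk_image_le.trans ?_
  rw [Cardinal.mk_setProd]
  calc #s * #t ≤ ℵ₁ * ℵ₁ := by gcongr
    _ = ℵ₁ := Cardinal.mul_eq_self (Cardinal.aleph0_le_aleph 1)

theorem mk_E_level (hlev : ∀ a, #(T₀ a) ≤ ℵ₁) (n : ℕ) (b : W) :
    #(res b '' {x | E T₀ n b x}) ≤ ℵ₁ := by
  induction n generalizing b with
  | zero =>
    have : (res b '' {x | E T₀ 0 b x}).Subsingleton := by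
      rintro _ ⟨x, hx, rfl⟩ _ ⟨y, hy, rfl⟩
      rw [res_eq_iff]
      intro c hc
      exact absurd (hx c) (not_le.mpr hc)
    exact (Cardinal.mk_le_one_iff_set_subsingleton.mpr this).trans
      (Cardinal.one_le_aleph0.trans (Cardinal.aleph0_le_aleph 1))
  | succ n ih =>
    have hsub : (res b '' {x | E T₀ (n + 1) b x}) ⊆ (res b '' {x | E T₀ n b x}) ∪
        ⋃ b' : Set.Iic b, Set.image2 glue (res b'.1 '' {x | E T₀ n b'.1 x}) (T₀ b) := by
      rintro _ ⟨x, hx, rfl⟩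
      rcases hx with hx | ⟨b', hb', h1, u, hu, h2⟩
      · exact Or.inl ⟨x, hx, rfl⟩
      · refine Or.inr (Set.mem_iUnion.mpr ⟨⟨b', hb'⟩, ?_⟩)
        refine ⟨res b' x, ⟨x, h1, rfl⟩, res b u, hu.1, ?_⟩
        funext c
        unfold glue res
        by_cases hc : c.1 < b'
        · simp [hc]
        · simp only [hc, dite_false]
          exact (h2 c.1 (not_lt.mp hc) c.2).symm
    refine (mk_le_mk_of_subset hsub).trans ((mk_union_le _ _).trans ?_)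
    calc _ ≤ ℵ₁ + ℵ₁ := by
          gcongr
          · exact ih b
          · exact mk_iUnion_le_aleph_one _ (mk_Iic' b) (fun b' =>
              mk_image2_le_aleph_one _ _ _ (ih b'.1) (hlev b))
      _ = ℵ₁ := Cardinal.add_eq_self (Cardinal.aleph0_le_aleph 1)

theorem mk_newTree (hlev : ∀ a, #(T₀ a) ≤ ℵ₁) (a : W) : #(newTree T₀ a) ≤ ℵ₁ := by
  have hsub : newTree T₀ a ⊆ ⋃ n : ℕ, ⋃ b : Set.Iic a,
      Set.image2 glue (res b.1 '' {x | E T₀ n b.1 x}) (T₀ a) := by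
    rintro _ ⟨x, ⟨n, b, hb, h1, τ, hτ, h2⟩, rfl⟩
    refine Set.mem_iUnion.mpr ⟨n, Set.mem_iUnion.mpr ⟨⟨b, hb⟩, ?_⟩⟩
    refine ⟨res b x, ⟨x, h1, rfl⟩, res a τ, hτ.mem, ?_⟩
    funext c
    unfold glue res
    by_cases hc : c.1 < b
    · simp [hc]
    · simp only [hc, dite_false]
      exact (h2 c.1 (not_lt.mp hc) c.2).symm
  refine (mk_le_mk_of_subset hsub).trans ?_
  refine mk_iUnion_le_aleph_one _ (by simp [Cardinal.aleph0_le_aleph 1]) (fun n => ?_)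
  exact mk_iUnion_le_aleph_one _ (mk_Iic' a) (fun b =>
    mk_image2_le_aleph_one _ _ _ (mk_E_level hlev n b.1) (hlev a))

end

end Pool.Agent.Helper84.Kurepa
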